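import Pool.Agent.H46.Lib.R_seed8.H484R2.Cont

/-! Weighted version of the continuation lemma: a periodic weight on `ι → ℤ`. -/

set_option autoImplicit false
set_option linter.unusedSectionVars false
open Filter Topology Complex

namespace Pool.Agent.W45.Ch

open Pool.Agent.H484R2.Cont

variable {ι : Type} [Fintype ι] [DecidableEq ι] {g : (ι → ℤ) → ℂ → ℂ}

/-- the difference series for one residue -/
noncomputable def Er (g : (ι → ℤ) → ℂ → ℂ) (m : ℕ) (η : ι → Fin m) (s : ℂ) : ℂ :=
  ∑' a : ι → ℤ, (g ((m : ℤ) • a + dig m η) s - g ((m : ℤ) • a) s)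

lemma analytic_Er (D : Data ι g) (m : ℕ) (hm : 1 ≤ m) (η : ι → Fin m) {s₀ : ℂ}
    (hs₀ : 1 - 1 / (2 * (Fintype.card ι : ℝ)) < s₀.re) : AnalyticAt ℂ (Er g m η) s₀ := by
  have hn : (1 : ℝ) ≤ Fintype.card ι := by exact_mod_cast D.card_pos
  set n : ℝ := (Fintype.card ι : ℝ) with hndef
  set R : ℝ := ‖s₀‖ + 1 with hR
  have hRpos : 0 < R := by positivity
  obtain ⟨C, hC0, hC⟩ := D.hb R hRpos
  obtain ⟨C', hC0', hC'⟩ := D.hlip m hm R hRpos
  set U : Set ℂ := {s : ℂ | ‖s‖ < R ∧ 1 - 1 / (2 * n) < s.re} with hU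
  have hUo : IsOpen U := by
    apply IsOpen.inter
    · exact isOpen_lt continuous_norm continuous_const
    · exact isOpen_lt continuous_const Complex.continuous_re
  have hs₀U : s₀ ∈ U := ⟨by rw [hR]; linarith, hs₀⟩
  have hσ : ∀ s ∈ U, 0 ≤ s.re := by
    intro s hs
    have h1 : 1 / (2 * n) ≤ 1 := by
      rw [div_le_one (by positivity)]; linarith
    linarith [hs.2]
  -- majorant
  let u : (ι → ℤ) → ℝ := fun a => if a = 0 then C else C' * ‖a‖ ^ (-(n + 1 / 2))
  have hu : Summable u := by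
    have h1 : Summable fun a : ι → ℤ => C' * ‖a‖ ^ (-(n + 1 / 2)) :=
      (summable_norm_rpow_pi (ι := ι) (r := n + 1 / 2) (by linarith)).mul_left C'
    refine (h1.add (summable_of_hasFiniteSupport (f := fun a : ι → ℤ => if a = 0 then C else 0) ?_)).of_nonneg_of_le
      ?_ ?_
    · refine Set.Finite.subset (Set.finite_singleton (0 : ι → ℤ)) ?_
      intro a ha
      simp only [Function.mem_support] at ha
      by_contra h
      exact ha (by simp at h; simp [h])
    · intro a
      simp only [u]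
      split_ifs <;> positivity
    · intro a
      simp only [u]
      split_ifs with h
      · have : 0 ≤ C' * ‖a‖ ^ (-(n + 1 / 2)) := by positivity
        linarith
      · simp
  have hdiff : DifferentiableOn ℂ (Er g m η) U := by
    unfold Er
    refine differentiableOn_tsum_of_summable_norm hu ?_ hUo ?_
    · intro a
      exact ((D.han _).sub (D.han _)).differentiableOn
    · intro a s hs
      have hsR : ‖s‖ ≤ R := le_of_lt hs.1
      simp only [u]
      split_ifs with h
      · subst h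
        rw [smul_zero, zero_add, D.h0, sub_zero]
        by_cases hη : dig m η = 0
        · rw [hη, D.h0, norm_zero]; exact hC0
        · refine (hC s hsR (hσ s hs) _ hη).trans ?_
          have h1 : ‖dig m η‖ ^ (-(n * s.re)) ≤ 1 := by
            apply Real.rpow_le_one_of_one_le_of_nonpos (one_le_norm hη)
            have := hσ s hs
            have : 0 ≤ n * s.re := by positivity
            linarith
          calc C * ‖dig m η‖ ^ (-(n * s.re)) ≤ C * 1 := by gcongr
            _ = C := mul_one _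
      · refine (hC' s hsR (hσ s hs) a h η).trans ?_
        have h1 : ‖a‖ ^ (-(n * s.re + 1)) ≤ ‖a‖ ^ (-(n + 1 / 2)) := by
          apply Real.rpow_le_rpow_of_exponent_le (one_le_norm h)
          have h2 := hs.2
          have h3 : n * (1 - 1 / (2 * n)) < n * s.re := by
            apply mul_lt_mul_of_pos_left h2; linarith
          have h4 : n * (1 - 1 / (2 * n)) = n - 1 / 2 := by
            field_simp
          linarith
        gcongr
  exact hdiff.analyticAt (hUo.mem_nhds hs₀U)

lemma summable_res (D : Data ι g) (m : ℕ) [NeZero m] {s : ℂ} (hs : 1 < s.re) (η : ι → Fin m) :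
    Summable fun a : ι → ℤ => g ((m : ℤ) • a + dig m η) s := by
  have hS := D.summable hs
  have hinj : Function.Injective fun a : ι → ℤ => (m : ℤ) • a + dig m η := by
    intro a b hab
    have h1 : (divE m).symm (a, η) = (divE m).symm (b, η) := by
      rw [divE_symm_apply, divE_symm_apply]
      exact hab
    have h2 := (divE m).symm.injective h1
    exact congrArg Prod.fst h2
  exact hS.comp_injective hinj

lemma summable_hom (D : Data ι g) (m : ℕ) [NeZero m] {s : ℂ} (hs : 1 < s.re) :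
    Summable fun a : ι → ℤ => g ((m : ℤ) • a) s := by
  have hm : 1 ≤ m := NeZero.one_le
  have := (D.summable hs).mul_left ((m : ℂ) ^ (-((Fintype.card ι : ℂ) * s)))
  refine this.congr fun a => ?_
  rw [D.hhom m hm]

lemma tsum_res (D : Data ι g) (m : ℕ) [NeZero m] {s : ℂ} (hs : 1 < s.re) (η : ι → Fin m) :
    ∑' a : ι → ℤ, g ((m : ℤ) • a + dig m η) s =
      Er g m η s + (m : ℂ) ^ (-((Fintype.card ι : ℂ) * s)) * ∑' a, g a s := by
  have hm : 1 ≤ m := NeZero.one_le
  unfold Er
  rw [Summable.tsum_sub (summable_res D m hs η) (summable_hom D m hs), ← tsum_mul_left]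
  have h1 : ∑' a : ι → ℤ, (m : ℂ) ^ (-((Fintype.card ι : ℂ) * s)) * g a s =
      ∑' a : ι → ℤ, g ((m : ℤ) • a) s := tsum_congr fun a => by rw [D.hhom m hm]
  rw [h1]
  ring

lemma summable_weighted (D : Data ι g) {s : ℂ} (hs : 1 < s.re) (W : (ι → ℤ) → ℂ)
    (hW1 : ∀ a, ‖W a‖ ≤ 1) : Summable fun a => W a * g a s := by
  have h := (D.summable hs).norm
  refine Summable.of_norm_bounded h fun a => ?_
  rw [norm_mul]
  calc ‖W a‖ * ‖g a s‖ ≤ 1 * ‖g a s‖ := by gcongr; exact hW1 a
    _ = _ := one_mul _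

lemma tsum_weighted (D : Data ι g) (m : ℕ) [NeZero m] {s : ℂ} (hs : 1 < s.re) (W : (ι → ℤ) → ℂ)
    (hW1 : ∀ a, ‖W a‖ ≤ 1)
    (hW : ∀ (a : ι → ℤ) (η : ι → Fin m), W ((m : ℤ) • a + dig m η) = W (dig m η)) :
    ∑' a, W a * g a s = ∑ η : ι → Fin m, W (dig m η) *
      (Er g m η s + (m : ℂ) ^ (-((Fintype.card ι : ℂ) * s)) * ∑' a, g a s) := by
  have hS := summable_weighted D hs W hW1
  obtain ⟨e, he⟩ : ∃ e : (ι → Fin m) × (ι → ℤ) ≃ (ι → ℤ),
      ∀ (η : ι → Fin m) (a : ι → ℤ), e (η, a) = (m : ℤ) • a + dig m η := by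
    refine ⟨(Equiv.prodComm _ _).trans (divE (ι := ι) m).symm, fun η a => ?_⟩
    rw [Equiv.trans_apply, Equiv.prodComm_apply, Prod.swap_prod_mk]
    exact divE_symm_apply m a η
  rw [← e.tsum_eq (fun a => W a * g a s)]
  have hS2 : Summable fun p : (ι → Fin m) × (ι → ℤ) => W (e p) * g (e p) s :=
    e.summable_iff.mpr hS
  rw [Summable.tsum_prod' hS2]
  · rw [tsum_fintype]
    refine Finset.sum_congr rfl fun η _ => ?_
    rw [← tsum_res D m hs η, ← tsum_mul_left]
    refine tsum_congr fun a => ?_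
    rw [he, hW]
  · intro η
    have := (summable_res D m hs η).mul_left (W (dig m η))
    refine this.congr fun a => ?_
    rw [he, hW]

theorem weighted_continuation (D : Data ι g) (m : ℕ) [NeZero m] (W : (ι → ℤ) → ℂ)
    (hW1 : ∀ a, ‖W a‖ ≤ 1)
    (hW : ∀ (a : ι → ℤ) (η : ι → Fin m), W ((m : ℤ) • a + dig m η) = W (dig m η)) (t : ℝ) :
    ∃ h : ℂ → ℂ, AnalyticAt ℂ h (1 + t * I) ∧
      ∀ᶠ z in 𝓝 ((1 : ℂ) + t * I), 1 < z.re → h z = (z - 1) * ∑' a, W a * g a z := by
  obtain ⟨h, hh1, hh2⟩ := D.continuation t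
  have hm : 1 ≤ m := NeZero.one_le
  have hm0 : (m : ℂ) ≠ 0 := by exact_mod_cast (NeZero.ne m)
  have hn1 : (1 : ℝ) ≤ Fintype.card ι := by exact_mod_cast D.card_pos
  have hre : 1 - 1 / (2 * (Fintype.card ι : ℝ)) < ((1 : ℂ) + t * I).re := by
    have : (0 : ℝ) < 1 / (2 * (Fintype.card ι : ℝ)) := by positivity
    rw [show ((1 : ℂ) + t * I).re = 1 by simp]
    linarith
  refine ⟨fun z => ∑ η : ι → Fin m, W (dig m η) *
      ((z - 1) * Er g m η z + (m : ℂ) ^ (-((Fintype.card ι : ℂ) * z)) * h z), ?_, ?_⟩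
  · refine Finset.analyticAt_fun_sum _ fun η _ => ?_
    refine analyticAt_const.mul (AnalyticAt.add ?_ ?_)
    · exact (analyticAt_id.sub analyticAt_const).mul (analytic_Er D m hm η hre)
    · refine AnalyticAt.mul ?_ hh1
      have hd : Differentiable ℂ fun z : ℂ => (m : ℂ) ^ (-((Fintype.card ι : ℂ) * z)) := by
        intro z
        exact DifferentiableAt.const_cpow (by fun_prop) (Or.inl hm0)
      exact hd.analyticAt _
  · filter_upwards [hh2] with z hz hz1
    rw [tsum_weighted D m hz1 W hW1 hW, hz hz1, Finset.mul_sum]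
    refine Finset.sum_congr rfl fun η _ => ?_
    ring

end Pool.Agent.W45.Ch
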